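import Mathlib

/-!
# The interpolation determinant in two variables

`det_dvd`: a determinant whose rows are combinations of monomials `t ^ α`, the coefficient of `t ^ α`
being divisible by `p ^ |α|`, is divisible by `p ^ w` if `N` distinct monomials have total degree at
least `w`. `deg_sum`: for two variables and any `m`, `N` distinct monomials have total degree at least
`m N - m (m + 1) (m + 2) / 6`.
-/

namespace Pool.Agent.H14.HK

open Finset

variable {R : Type*} [CommRing R]

/-- Rows which are finite combinations of the vectors `b a`, `a ∈ S`, with coefficients divisible by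
`p ^ deg a`: the determinant is divisible by `p ^ w`. -/
theorem det_dvd {ι : Type*} [DecidableEq ι] (p : R) (N w : ℕ) (S : Finset ι) (deg : ι → ℕ)
    (c : Fin N → ι → R) (b : ι → Fin N → R)
    (hw : ∀ f : Fin N → ι, (∀ j, f j ∈ S) → Function.Injective f → w ≤ ∑ j, deg (f j)) :
    p ^ w ∣ (Matrix.of fun j i => ∑ a ∈ S, c j a * p ^ deg a * b a i : Matrix (Fin N) (Fin N) R).det := by
  classical
  have h1 : (Matrix.of fun j i => ∑ a ∈ S, c j a * p ^ deg a * b a i : Matrix (Fin N) (Fin N) R)
      = fun j => ∑ a ∈ S, (c j a * p ^ deg a) • b a := by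
    funext j i
    simp [Finset.sum_apply]
  have h2 := (Matrix.detRowAlternating (n := Fin N) (R := R)).toMultilinearMap.map_sum_finset
    (fun j a => (c j a * p ^ deg a) • b a) (fun _ => S)
  have h3 : (Matrix.of fun j i => ∑ a ∈ S, c j a * p ^ deg a * b a i : Matrix (Fin N) (Fin N) R).det
      = ∑ r ∈ Fintype.piFinset fun _ : Fin N => S,
        Matrix.detRowAlternating (fun j => (c j (r j) * p ^ deg (r j)) • b (r j)) := by
    rw [h1]
    exact h2
  rw [h3]
  refine Finset.dvd_sum fun r hr => ?_
  have h4 : Matrix.detRowAlternating (fun j => (c j (r j) * p ^ deg (r j)) • b (r j))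
      = (∏ j, (c j (r j) * p ^ deg (r j))) • Matrix.detRowAlternating (fun j => b (r j)) :=
    (Matrix.detRowAlternating (n := Fin N) (R := R)).toMultilinearMap.map_smul_univ _ _
  rw [h4]
  by_cases hinj : Function.Injective r
  · have h5 := hw r (fun j => Fintype.mem_piFinset.1 hr j) hinj
    rw [smul_eq_mul, Finset.prod_mul_distrib, Finset.prod_pow_eq_pow_sum]
    exact Dvd.dvd.mul_right (Dvd.dvd.mul_left (pow_dvd_pow _ h5) _) _
  · have : Matrix.detRowAlternating (fun j => b (r j)) = 0 := by
      obtain ⟨i, j, hij, hne⟩ : ∃ i j, r i = r j ∧ i ≠ j := by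
        simpa [Function.Injective] using hinj
      exact (Matrix.detRowAlternating (n := Fin N) (R := R)).map_eq_zero_of_eq _ (by simp [hij]) hne
    rw [this, smul_zero]
    exact dvd_zero _

/-- A determinant changes by a multiple of `q` if its entries do. -/
theorem det_congr (q : R) {N : ℕ} (A B : Matrix (Fin N) (Fin N) R) (h : ∀ i j, q ∣ A i j - B i j) :
    q ∣ A.det - B.det := by
  rw [← Ideal.mem_span_singleton, ← Ideal.Quotient.eq, ← RingHom.coe_coe]
  have hA := (Ideal.Quotient.mk (Ideal.span {q})).map_det A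
  have hB := (Ideal.Quotient.mk (Ideal.span {q})).map_det B
  rw [RingHom.coe_coe, hA, hB]
  congr 1
  ext i j
  simp only [RingHom.mapMatrix_apply, Matrix.map_apply]
  rw [Ideal.Quotient.eq, Ideal.mem_span_singleton]
  exact h i j

/-- `N` distinct monomials in two variables have total degree at least `m N - m (m + 1) (m + 2) / 6`. -/
theorem deg_sum (N m : ℕ) (f : Fin N → ℕ × ℕ) (hf : Function.Injective f) :
    6 * (m * N) ≤ 6 * ∑ j, ((f j).1 + (f j).2) + m * (m + 1) * (m + 2) := by
  classical
  have h1 : m * N ≤ ∑ j, ((f j).1 + (f j).2) + ∑ j, (m - ((f j).1 + (f j).2)) := by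
    rw [← Finset.sum_add_distrib]
    calc m * N = ∑ _j : Fin N, m := by simp [mul_comm]
      _ ≤ _ := Finset.sum_le_sum fun j _ => by omega
  have h2 : ∑ j, (m - ((f j).1 + (f j).2))
      ≤ ∑ a ∈ (Finset.range m).sigma fun k => HasAntidiagonal.antidiagonal k, (m - a.1) := by
    have e1 : ∑ j, (m - ((f j).1 + (f j).2)) = ∑ a ∈ Finset.univ.image f, (m - (a.1 + a.2)) := by
      rw [Finset.sum_image fun i _ j _ h => hf h]
    rw [e1]
    have e2 : ∑ a ∈ (Finset.range m).sigma fun k => HasAntidiagonal.antidiagonal k, (m - a.1)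
        = ∑ a ∈ ((Finset.range m).sigma fun k => HasAntidiagonal.antidiagonal k).image
          (fun a : (_ : ℕ) × (ℕ × ℕ) => a.2), (m - (a.1 + a.2)) := by
      rw [Finset.sum_image]
      · refine Finset.sum_congr rfl fun a ha => ?_
        rw [Finset.mem_sigma, HasAntidiagonal.mem_antidiagonal] at ha
        rw [ha.2]
      · rintro ⟨k, a⟩ ha ⟨l, b⟩ hb h
        simp only [Finset.coe_sigma, Set.mem_sigma_iff, Finset.mem_coe, HasAntidiagonal.mem_antidiagonal] at ha hb
        simp only at h
        subst h
        obtain rfl : k = l := by rw [← ha.2, ← hb.2]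
        rfl
    rw [e2]
    refine Finset.sum_le_sum_of_ne_zero fun a ha h0 => ?_
    rw [Finset.mem_image]
    exact ⟨⟨a.1 + a.2, a⟩, by
      rw [Finset.mem_sigma, Finset.mem_range, HasAntidiagonal.mem_antidiagonal]
      exact ⟨(by omega : a.1 + a.2 < m), rfl⟩, rfl⟩
  have h3 : 6 * ∑ a ∈ (Finset.range m).sigma fun k => HasAntidiagonal.antidiagonal k, (m - a.1)
      = m * (m + 1) * (m + 2) := by
    rw [Finset.sum_sigma]
    simp only [Finset.sum_const, Finset.Nat.card_antidiagonal, smul_eq_mul]
    clear h1 h2
    induction m with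
    | zero => simp
    | succ m ih =>
      have e : ∀ k ∈ Finset.range (m + 1), (k + 1) * (m + 1 - k) = (k + 1) * (m - k) + (k + 1) := by
        intro k hk
        rw [Finset.mem_range] at hk
        obtain ⟨l, rfl⟩ : ∃ l, m = k + l := ⟨m - k, by omega⟩
        rw [show k + l + 1 - k = l + 1 by omega, show k + l - k = l by omega]
        ring
      rw [Finset.sum_congr rfl e, Finset.sum_add_distrib, Finset.sum_range_succ (n := m)]
      have g : 2 * ∑ k ∈ Finset.range (m + 1), (k + 1) = (m + 1) * (m + 2) := by
        clear ih e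
        induction m with
        | zero => simp
        | succ m ih => rw [Finset.sum_range_succ, mul_add, ih]; ring
      rw [Nat.sub_self, mul_zero, add_zero, mul_add, ih]
      nlinarith [g]
  omega

end Pool.Agent.H14.HK
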