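import Mathlib

/-!
# The zero estimate

A group `G` with a length function acts by homeomorphisms on a space `X`; `d` is a dimension function
on irreducible closed sets with values at most `n` (strictly increasing, `G`-invariant); `S` is a closed
set, `x` a point. For `j` let `Zj S j` be the set of `y` with `g y ∈ S` for all `g` of length at most
`j R`. If `x ∈ Zj S (2 n)`, then for some `j` the `g V`, `|g| ≤ R`, are irreducible components of `Zj S j`,
with `V` a proper irreducible closed set through `x`. If no `g ≠ 1` leaves a proper irreducible closed set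
through `x` invariant, they are distinct, so `Zj S j` has at least as many components as there are `g` of
length at most `R`.
-/

namespace Pool.Agent.H14.HK

open Set

section

variable {X G : Type*} [TopologicalSpace X] [Group G] [MulAction G X]

/-- The points `y` with `g y ∈ S` for all `g` of length at most `R`. -/
def Zb (S : Set X) (len : G → ℕ) (R : ℕ) : Set X := {y | ∀ g : G, len g ≤ R → g • y ∈ S}

/-- The maximal irreducible closed subsets of `Z`. -/
def comps (Z : Set X) : Set (Set X) :=
  {V | (IsIrreducible V ∧ IsClosed V ∧ V ⊆ Z) ∧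
    ∀ W, IsIrreducible W → IsClosed W → W ⊆ Z → V ⊆ W → W = V}

variable (len : G → ℕ) (S : Set X)

theorem Zb_anti {R R' : ℕ} (h : R ≤ R') : Zb S len R' ⊆ Zb S len R :=
  fun _ hy g hg => hy g (hg.trans h)

theorem smul_Zb (hmul : ∀ g h, len (g * h) ≤ len g + len h) {a b : ℕ} {g : G} (hg : len g ≤ a) {y : X}
    (hy : y ∈ Zb S len (b + a)) : g • y ∈ Zb S len b := by
  intro g' hg'
  rw [smul_smul]
  exact hy _ ((hmul _ _).trans (by omega))

/-- Ten numbers or more, weakly decreasing, with few values: three consecutive ones are equal. -/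
theorem three_equal (n : ℕ) (D : ℕ → ℕ) (hD : ∀ j, D (j + 1) ≤ D j) (h0 : D 0 < n) :
    ∃ j, 1 ≤ j ∧ j < 2 * n ∧ D (j - 1) = D j ∧ D j = D (j + 1) := by
  by_contra hcon
  push Not at hcon
  -- in two steps the value drops by one
  have key : ∀ i, i ≤ n → D (2 * i) + i ≤ D 0 := by
    intro i
    induction i with
    | zero => intro _; simp
    | succ i ih =>
      intro hi
      have h1 := ih (by omega)
      have h2 := hcon (2 * i + 1) (by omega) (by omega)
      have h3 : D (2 * i + 1) ≤ D (2 * i) := hD _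
      have h4 : D (2 * i + 1 + 1) ≤ D (2 * i + 1) := hD _
      have h5 : 2 * i + 1 - 1 = 2 * i := by omega
      rw [h5] at h2
      have h6 : 2 * (i + 1) = 2 * i + 1 + 1 := by ring
      rw [h6]
      by_cases h7 : D (2 * i) = D (2 * i + 1)
      · have := h2 h7
        omega
      · omega
  have := key n le_rfl
  omega

/-- **Zero estimate.** -/
theorem zero_estimate (n : ℕ) (d : Set X → ℕ)
    (hcont : ∀ g : G, Continuous fun y : X => g • y)
    (hd : ∀ V W : Set X, IsIrreducible V → IsClosed V → IsIrreducible W → IsClosed W → V ⊆ W → V ≠ W →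
      d V < d W)
    (hdg : ∀ (g : G) (V : Set X), IsIrreducible V → IsClosed V → d ((fun y => g • y) '' V) = d V)
    (hmul : ∀ g h, len (g * h) ≤ len g + len h) (hinv : ∀ g, len g⁻¹ = len g) (h1 : len 1 = 0)
    (hS : IsClosed S) (hSd : ∀ V : Set X, IsIrreducible V → IsClosed V → V ⊆ S → d V < n)
    (R : ℕ) (x : X) (hx : x ∈ Zb S len (2 * n * R)) :
    ∃ (j : ℕ) (V : Set X), 1 ≤ j ∧ j < 2 * n ∧ IsIrreducible V ∧ IsClosed V ∧ x ∈ V ∧ V ⊆ S ∧
      ∀ g : G, len g ≤ R → (fun y => g • y) '' V ∈ comps (Zb S len (j * R)) := by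
  classical
  -- the dimension at x of the j-th set
  let Q : ℕ → ℕ → Prop := fun j k => ∃ V : Set X, IsIrreducible V ∧ IsClosed V ∧ V ⊆ Zb S len (j * R) ∧
    x ∈ V ∧ d V = k
  have hZS : ∀ r, Zb S len r ⊆ S := fun r y hy => by
    have := hy 1 (by omega)
    rwa [one_smul] at this
  have hcl : ∀ r, IsClosed (Zb S len r) := by
    intro r
    have : Zb S len r = ⋂ g : G, ⋂ _ : len g ≤ r, (fun y => g • y) ⁻¹' S := by
      ext y; simp [Zb]
    rw [this]
    exact isClosed_iInter fun g => isClosed_iInter fun _ => hS.preimage (hcont g)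
  have hQb : ∀ j k, Q j k → k < n := by
    rintro j k ⟨V, hV, hVc, hVZ, -, rfl⟩
    exact hSd V hV hVc (hVZ.trans (hZS _))
  have hQ0 : ∀ j, j ≤ 2 * n → ∃ k, Q j k := by
    intro j hj
    refine ⟨_, closure {x}, isIrreducible_singleton.closure, isClosed_closure, ?_,
      subset_closure rfl, rfl⟩
    refine closure_minimal ?_ (hcl _)
    rw [singleton_subset_iff]
    exact Zb_anti len S (Nat.mul_le_mul_right _ hj) hx
  have hQm : ∀ j k, Q (j + 1) k → Q j k := by
    rintro j k ⟨V, hV, hVc, hVZ, hxV, hk⟩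
    exact ⟨V, hV, hVc, hVZ.trans (Zb_anti len S (Nat.mul_le_mul_right _ (Nat.le_succ j))), hxV, hk⟩
  -- the maximal dimension
  let D : ℕ → ℕ := fun j => Nat.findGreatest (Q j) n
  have hDQ : ∀ j, j ≤ 2 * n → Q j (D j) := by
    intro j hj
    obtain ⟨k, hk⟩ := hQ0 j hj
    exact Nat.findGreatest_spec (hQb j k hk).le hk
  have hDm : ∀ j k, Q j k → k ≤ D j := fun j k hk => Nat.le_findGreatest (hQb j k hk).le hk
  have hDd : ∀ j, D (j + 1) ≤ D j := by
    intro j
    by_cases h : D (j + 1) = 0
    · omega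
    · have hq : Q (j + 1) (D (j + 1)) := by
        have h2 : D (j + 1) = Nat.findGreatest (Q (j + 1)) n := rfl
        exact Nat.findGreatest_of_ne_zero h2.symm h
      exact hDm j _ (hQm j _ hq)
  have hD0 : D 0 < n := hQb 0 _ (hDQ 0 (by omega))
  obtain ⟨j, hj1, hj2, e1, e2⟩ := three_equal n D hDd hD0
  obtain ⟨V, hV, hVc, hVZ, hxV, hdV⟩ := hDQ (j + 1) (by omega)
  refine ⟨j, V, hj1, hj2, hV, hVc, hxV, hVZ.trans (hZS _), fun g hg => ?_⟩
  -- translates
  have hinvt : ∀ (a : G) (T : Set X), (fun y : X => a • y) '' T = (fun y => a⁻¹ • y) ⁻¹' T := by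
    intro a T
    ext y
    constructor
    · rintro ⟨z, hz, rfl⟩
      simpa using hz
    · intro hy
      exact ⟨a⁻¹ • y, hy, by simp⟩
  have himc : ∀ (a : G) (T : Set X), IsClosed T → IsClosed ((fun y : X => a • y) '' T) := by
    intro a T hT
    rw [hinvt]
    exact hT.preimage (hcont _)
  have himi : ∀ (a : G) (T : Set X), IsIrreducible T → IsIrreducible ((fun y : X => a • y) '' T) :=
    fun a T hT => hT.image _ (hcont a).continuousOn
  refine ⟨⟨himi g V hV, himc g V hVc, ?_⟩, ?_⟩
  · rintro _ ⟨y, hy, rfl⟩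
    refine smul_Zb len S hmul hg ?_
    have := hVZ hy
    rwa [add_mul, one_mul] at this
  · intro W hW hWc hWZ hgW
    by_contra hne
    -- g⁻¹ W is in the (j-1)-st set and contains x
    have h2 : Q (j - 1) (d W) := by
      refine ⟨(fun y => g⁻¹ • y) '' W, himi _ W hW, himc _ W hWc, ?_, ?_, hdg _ W hW hWc⟩
      · rintro _ ⟨y, hy, rfl⟩
        refine smul_Zb len S hmul (a := R) (by rw [hinv]; exact hg) ?_
        have := hWZ hy
        have e : (j - 1) * R + R = j * R := by
          obtain ⟨i, rfl⟩ : ∃ i, j = i + 1 := ⟨j - 1, by omega⟩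
          rw [Nat.add_sub_cancel]; ring
        rwa [e]
      · exact ⟨g • x, hgW ⟨x, hxV, rfl⟩, by simp⟩
    have h3 := hDm _ _ h2
    have h4 : d ((fun y => g • y) '' V) < d W :=
      hd _ W (himi g V hV) (himc g V hVc) hW hWc hgW fun h => hne h.symm
    rw [hdg g V hV hVc, hdV] at h4
    omega

/-- If no `g ≠ 1` leaves a proper irreducible closed set through `x` invariant, the number of components
of one of the sets is at least the number of `g` of length at most `R`. -/
theorem zero_estimate_card (n : ℕ) (d : Set X → ℕ)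
    (hcont : ∀ g : G, Continuous fun y : X => g • y)
    (hd : ∀ V W : Set X, IsIrreducible V → IsClosed V → IsIrreducible W → IsClosed W → V ⊆ W → V ≠ W →
      d V < d W)
    (hdg : ∀ (g : G) (V : Set X), IsIrreducible V → IsClosed V → d ((fun y => g • y) '' V) = d V)
    (hmul : ∀ g h, len (g * h) ≤ len g + len h) (hinv : ∀ g, len g⁻¹ = len g) (h1 : len 1 = 0)
    (hS : IsClosed S) (hSd : ∀ V : Set X, IsIrreducible V → IsClosed V → V ⊆ S → d V < n)
    (hSu : S ≠ univ) (R : ℕ) (x : X)
    (hgen : ∀ (g : G) (V : Set X), g ≠ 1 → IsIrreducible V → IsClosed V → x ∈ V → V ≠ univ →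
      (fun y => g • y) '' V ≠ V)
    (B : ℕ) (hB : ∀ j, j < 2 * n → (comps (Zb S len (j * R))).encard ≤ B)
    (F : Finset G) (hF : ∀ g ∈ F, len g ≤ R) (hFB : B < F.card) :
    ∃ g : G, len g ≤ 2 * n * R ∧ g • x ∉ S := by
  classical
  by_contra hcon
  push Not at hcon
  obtain ⟨j, V, hj1, hj2, hV, hVc, hxV, hVS, hVg⟩ :=
    zero_estimate len S n d hcont hd hdg hmul hinv h1 hS hSd R x hcon
  have hVu : V ≠ univ := fun h => hSu (univ_subset_iff.1 (h ▸ hVS))
  have hinj : Set.InjOn (fun g : G => (fun y : X => g • y) '' V) (F : Set G) := by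
    intro g _ g' _ h
    by_contra hne
    refine hgen (g'⁻¹ * g) V (fun h0 => hne ?_) hV hVc hxV hVu ?_
    · have h5 : g' * (g'⁻¹ * g) = g' := by rw [h0, mul_one]
      rwa [mul_inv_cancel_left] at h5
    · have h5 : (fun y : X => (g'⁻¹ * g) • y) '' V
          = (fun y => g'⁻¹ • y) '' ((fun y => g • y) '' V) := by
        rw [image_image]; simp [mul_smul]
      rw [h5]
      simp only at h
      rw [h, image_image]
      simp
  have h2 : (F : Set G).encard ≤ (comps (Zb S len (j * R))).encard := by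
    rw [← hinj.encard_image]
    refine Set.encard_le_encard ?_
    rintro _ ⟨g, hg, rfl⟩
    exact hVg g (hF g hg)
  have h3 := h2.trans (hB j hj2)
  rw [Set.encard_coe_eq_coe_finsetCard] at h3
  have h4 : F.card ≤ B := by exact_mod_cast h3
  omega

end

end Pool.Agent.H14.HK
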